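import Mathlib
import Pool.Agent.R578.AO3

set_option autoImplicit false

open Cardinal Set Pool.Agent.Helper292.SP

namespace Pool.Agent.Results.MP_e34318_lc.AlephOmegaOne

/-- (1) (A theorem of ZFC, no hypothesis.) There is a forcing notion `P` which forces `ℵ_{ω₁} ↛ (ℵ_{ω₁}, ω + 1)²`:
there are a well-order `K` and a strictly increasing cofinal `f : ω₁ → K` such that every `p : P` forces: `ω₁` and `K`
are cardinals, the infinite cardinals below `K` (the points `a` whose initial segment is infinite and a cardinal) are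
exactly the values of `f` (so `K` is `ℵ_{ω₁}` in the extension), and `K → (K, ω + 1)²` fails.
(2) More generally, if `μ` is regular with `μ ^ σ ≤ μ` for all `σ < μ`, `2 ^ μ < κ` and `cf κ = μ⁺`, there is a
forcing notion `P` such that every `p : P` forces: all ground model cardinals `≤ μ⁺` and `> 2 ^ μ` remain cardinals,
those in `(μ⁺, 2 ^ μ]` are collapsed to `μ⁺`, and `κ → (κ, ω + 1)²` fails. -/
theorem result :
    (∃ (K P : Type) (_ : LinearOrder K) (_ : WellFoundedLT K) (_ : Preorder P)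
      (f : (ℵ₁ : Cardinal.{0}).ord.ToType → K), Nonempty P ∧ StrictMono f ∧ (∀ y, ∃ x, y ≤ f x) ∧ ∀ p : P,
        p ∈ IsCard P (ℵ₁ : Cardinal.{0}).ord.ToType ∧ p ∈ IsCard P K ∧
        (∀ a : K, a ∈ range f → (Iio a).Infinite ∧ p ∈ IsCard P (Iio a)) ∧
        (∀ a : K, a ∉ range f → (Iio a).Finite ∨ p ∈ fnot (IsCard P (Iio a))) ∧
        p ∈ fnot (ArrowT P K (WithTop ℕ))) ∧
    (∀ μ κ : Cardinal.{0}, μ.IsRegular → (∀ σ < μ, μ ^ σ ≤ μ) → (2 : Cardinal.{0}) ^ μ < κ →
      κ.ord.cof = Order.succ μ →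
      ∃ (K P : Type) (_ : LinearOrder K) (_ : WellFoundedLT K) (_ : Preorder P),
        Ordinal.type (α := K) (· < ·) = κ.ord ∧ Nonempty P ∧ ∀ p : P,
        (∀ X Y : Type, #X < #Y → (#Y ≤ Order.succ μ ∨ (2 : Cardinal.{0}) ^ μ < #Y) →
          p ∈ fnot (fex fun F : X → Y → Set P => fand (IsFun F) (Covers F fun _ => Set.univ))) ∧
        (∀ X Y : Type, Order.succ μ ≤ #X → Nonempty Y → #Y ≤ (2 : Cardinal.{0}) ^ μ →
          p ∈ fex fun F : X → Y → Set P => fand (IsFun F) (Covers F fun _ => Set.univ)) ∧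
        p ∈ fnot (ArrowT P K (WithTop ℕ))) :=
  ⟨Pool.Agent.R578.AO.aleph_case, fun μ κ hμ hpow hκ hcof => Pool.Agent.R578.AO.general μ κ hμ hpow hκ hcof⟩

end Pool.Agent.Results.MP_e34318_lc.AlephOmegaOne
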